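import Pool.Agent.H418R3.EF.Stmts

set_option autoImplicit false

namespace Pool.Agent.H644R3.EFT4

open Pool.Agent.H418R3.EF
open scoped Pointwise

abbrev Y := AddSubgroup ℚ × AddSubgroup ℚ
abbrev H := ℚˣ × ℚˣ

@[reducible] def act : MulAction H Y where
  smul g x := (g.1 • x.1, g.2 • x.2)
  one_smul x := Prod.ext (one_smul ℚˣ x.1) (one_smul ℚˣ x.2)
  mul_smul g h x := Prod.ext (mul_smul g.1 h.1 x.1) (mul_smul g.2 h.2 x.2)

lemma meas_mem (v : ℚ) : MeasurableSet {S : AddSubgroup ℚ | v ∈ S} := by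
  have h1 : Measurable (fun S : AddSubgroup ℚ => fun v : ℚ => v ∈ S) := comap_measurable _
  exact measurableSet_setOfPred.mpr ((measurable_pi_apply v).comp h1)

lemma meas_to {Z : Type} [MeasurableSpace Z] (F : Z → AddSubgroup ℚ)
    (h : ∀ v, MeasurableSet {z | v ∈ F z}) : Measurable F := by
  apply measurable_comap_iff.mpr
  apply measurable_pi_iff.mpr
  intro v
  exact measurableSet_setOfPred.mp (h v)

lemma meas_eq {Z : Type} [MeasurableSpace Z] (F F' : Z → AddSubgroup ℚ)
    (h : ∀ v, MeasurableSet {z | v ∈ F z}) (h' : ∀ v, MeasurableSet {z | v ∈ F' z}) :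
    MeasurableSet {z | F z = F' z} := by
  have h1 : {z | F z = F' z} = {z | ∀ v, (v ∈ F z ↔ v ∈ F' z)} := by
    ext z
    exact AddSubgroup.ext_iff
  rw [h1]
  apply measurableSet_setOfPred.mpr
  apply Measurable.forall
  intro v
  exact (measurableSet_setOfPred.mp (h v)).iff (measurableSet_setOfPred.mp (h' v))

lemma mem_sm (q : ℚˣ) (S : AddSubgroup ℚ) (v : ℚ) : v ∈ q • S ↔ q⁻¹ • v ∈ S :=
  AddSubgroup.mem_pointwise_smul_iff_inv_smul_mem

lemma meas_sm {Z : Type} [MeasurableSpace Z] (F : Z → AddSubgroup ℚ) (q : ℚˣ)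
    (h : ∀ v, MeasurableSet {z | v ∈ F z}) : ∀ v, MeasurableSet {z | v ∈ q • F z} := by
  intro v
  simp only [mem_sm]
  exact h _

instance : Countable ℚˣ := Function.Injective.countable (f := Units.val) Units.val_injective

instance : Countable H := inferInstanceAs (Countable (ℚˣ × ℚˣ))

/-- `F` describes `A` -/
def Desc (A : Sn 2) (F : Finset (V 2)) : Prop := ∀ v : V 2, v ∈ A.1 ↔
  ∃ (x y : ℚ) (w : V 2), x ∈ B1 A ∧ y ∈ B2 A ∧ w ∈ AddSubgroup.closure (F : Set (V 2)) ∧
    v = ![x, y] + w

noncomputable def dec (n : ℕ) : Finset (V 2) :=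
  haveI : Nonempty (Finset (V 2)) := ⟨∅⟩
  (exists_surjective_nat (Finset (V 2))).choose n

lemma dec_surj : Function.Surjective dec :=
  haveI : Nonempty (Finset (V 2)) := ⟨∅⟩
  (exists_surjective_nat (Finset (V 2))).choose_spec

open Classical in
noncomputable def cd (A : Sn 2) : ℕ := if h : ∃ n, Desc A (dec n) then Nat.find h else 0

lemma cd_spec {A : Sn 2} (h : ∃ F, Desc A F) : Desc A (dec (cd A)) := by
  classical
  obtain ⟨F, hF⟩ := h
  obtain ⟨n, rfl⟩ := dec_surj F
  have h1 : ∃ n, Desc A (dec n) := ⟨n, hF⟩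
  unfold cd
  rw [dif_pos h1]
  exact Nat.find_spec h1

theorem t : TaskT4 := by
  intro hAb hT1 hT2 hT3 hStd _
  obtain ⟨hc, _, hgm, _, hmem⟩ := hStd 2
  haveI := hc
  have hB1 : ∀ v, MeasurableSet {A : Sn 2 | v ∈ B1 A} := fun v => hmem ![v, 0]
  have hB2 : ∀ v, MeasurableSet {A : Sn 2 | v ∈ B2 A} := fun v => hmem ![0, v]
  letI := act
  have hcoc := hAb H (fun a b => mul_comm a b) Y (fun g => by
    apply Measurable.prodMk
    · exact (meas_to (fun S : AddSubgroup ℚ => g.1 • S) (meas_sm (fun S => S) g.1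
        meas_mem)).comp measurable_fst
    · exact (meas_to (fun S : AddSubgroup ℚ => g.2 • S) (meas_sm (fun S => S) g.2
        meas_mem)).comp measurable_snd) (fun g => by
    have h1 : {x : Y | g • x = x} = Prod.fst ⁻¹' {S : AddSubgroup ℚ | g.1 • S = S} ∩
        Prod.snd ⁻¹' {S : AddSubgroup ℚ | g.2 • S = S} := by
      ext x
      exact Prod.ext_iff
    rw [h1]
    exact (measurable_fst (meas_eq _ _ (meas_sm (fun S => S) g.1 meas_mem) meas_mem)).inter
      (measurable_snd (meas_eq _ _ (meas_sm (fun S => S) g.2 meas_mem) meas_mem)))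
  obtain ⟨Γ, hΓ, hΓc, β, l, h1, h2, h3, h4⟩ := hcoc
  let f : Sn 2 → Y := fun A => (B1 A, B2 A)
  have hf : Measurable f := (meas_to _ hB1).prodMk (meas_to _ hB2)
  have hfg : ∀ A ∈ PT, ∀ g : GQ 2, g • A ∈ PT → ∃ q : H, q • f A = f (g • A) := by
    intro A hA g hgA
    obtain ⟨q1, q2, e1, e2⟩ := hT2 hT1 A g hA hgA
    exact ⟨(q1, q2), Prod.ext e1 e2⟩
  refine ⟨Γ, hΓ, hΓc, fun A' A => β (f A') (f A), fun A => Nat.pair (l (f A)) (cd A),
    ?_, ?_, ?_, ?_⟩
  · rintro x hx y hy z hz ⟨g, rfl⟩ ⟨g', rfl⟩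
    exact h1 _ (Set.mem_univ _) _ (Set.mem_univ _) _ (Set.mem_univ _) (hfg x hx g hy)
      (hfg _ hy g' hz)
  · rintro x hx y hy ⟨g, rfl⟩ hb hl
    obtain ⟨hl1, hl2⟩ := Nat.pair_eq_pair.mp hl
    have e := h2 _ (Set.mem_univ _) _ (Set.mem_univ _) (hfg x hx g hy) hb hl1
    have eB1 : B1 x = B1 (g • x) := congrArg Prod.fst e
    have eB2 : B2 x = B2 (g • x) := congrArg Prod.snd e
    have d1 := cd_spec (hT3 x hx)
    have d2 := cd_spec (hT3 _ hy)
    rw [← hl2] at d2
    apply Subtype.ext
    ext v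
    rw [d1 v, d2 v, eB1, eB2]
  · intro g γ
    have e : {x | x ∈ PT ∧ g • x ∈ PT ∧ β (f (g • x)) (f x) = γ} =
        ⋃ q : H, (PT ∩ (fun x => g • x) ⁻¹' PT) ∩ ({x | f (g • x) = q • f x} ∩
          f ⁻¹' {y | y ∈ Set.univ ∧ q • y ∈ Set.univ ∧ β (q • y) y = γ}) := by
      ext x
      rw [Set.mem_iUnion]
      constructor
      · rintro ⟨hx, hgx, hb⟩
        obtain ⟨q, hq⟩ := hfg x hx g hgx
        exact ⟨q, ⟨hx, hgx⟩, hq.symm, Set.mem_univ _, Set.mem_univ _, by rw [hq]; exact hb⟩
      · rintro ⟨q, ⟨hx, hgx⟩, hq, _, _, hb⟩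
        refine ⟨hx, hgx, ?_⟩
        have hq' : f (g • x) = q • f x := hq
        rw [hq']
        exact hb
    rw [e]
    have hPT : MeasurableSet PT := ‹TaskMeas›.2.2.2
    apply MeasurableSet.iUnion
    intro q
    refine (hPT.inter (hgm g hPT)).inter (MeasurableSet.inter ?_ (hf (h3 q γ)))
    have e2 : {x : Sn 2 | f (g • x) = q • f x} = {x | B1 (g • x) = q.1 • B1 x} ∩
        {x | B2 (g • x) = q.2 • B2 x} := by
      ext x
      exact Prod.ext_iff
    rw [e2]
    exact (meas_eq (fun x : Sn 2 => B1 (g • x)) (fun x => q.1 • B1 x) (fun v => hgm g (hB1 v))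
      (meas_sm (fun x => B1 x) q.1 hB1)).inter
      (meas_eq (fun x : Sn 2 => B2 (g • x)) (fun x => q.2 • B2 x) (fun v => hgm g (hB2 v))
      (meas_sm (fun x => B2 x) q.2 hB2))
  · intro k
    have hPT : MeasurableSet PT := ‹TaskMeas›.2.2.2
    have hD : ∀ n, MeasurableSet {A : Sn 2 | Desc A (dec n)} := by
      intro n
      unfold Desc
      apply measurableSet_setOfPred.mpr
      apply Measurable.forall
      intro v
      apply Measurable.iff (measurableSet_setOfPred.mp (hmem v))
      apply Measurable.exists; intro x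
      apply Measurable.exists; intro y
      apply Measurable.exists; intro w
      apply (measurableSet_setOfPred.mp (hB1 x)).and
      apply (measurableSet_setOfPred.mp (hB2 y)).and
      exact measurable_const
    have hcd : ∀ n, MeasurableSet {A : Sn 2 | cd A = n} := by
      intro n
      classical
      have e : {A : Sn 2 | cd A = n} = ({A | Desc A (dec n)} ∩
          {A | ∀ m : Fin n, ¬ Desc A (dec m)}) ∪ ({A | ¬ ∃ m, Desc A (dec m)} ∩ {A | 0 = n}) := by
        ext A
        simp only [Set.mem_union, Set.mem_inter_iff]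
        unfold cd
        constructor
        · intro h
          change (if h : ∃ n, Desc A (dec n) then Nat.find h else 0) = n at h
          by_cases h5 : ∃ n, Desc A (dec n)
          · left
            rw [dif_pos h5] at h
            refine ⟨?_, ?_⟩
            · rw [← h]; exact Nat.find_spec h5
            · rintro ⟨m, hm⟩
              exact Nat.find_min h5 (by omega)
          · right
            rw [dif_neg h5] at h
            exact ⟨h5, h⟩
        · rintro (⟨h5, h6⟩ | ⟨h5, h6⟩)
          · change (if h : ∃ n, Desc A (dec n) then Nat.find h else 0) = n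
            have h7 : ∃ n, Desc A (dec n) := ⟨n, h5⟩
            rw [dif_pos h7, Nat.find_eq_iff]
            exact ⟨h5, fun m hm => h6 ⟨m, hm⟩⟩
          · change (if h : ∃ n, Desc A (dec n) then Nat.find h else 0) = n
            rw [dif_neg h5]
            exact h6
      rw [e]
      apply MeasurableSet.union
      · apply (hD n).inter
        apply measurableSet_setOfPred.mpr
        apply Measurable.forall
        intro m
        exact (measurableSet_setOfPred.mp (hD m)).not
      · apply MeasurableSet.inter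
        · apply measurableSet_setOfPred.mpr
          apply Measurable.not
          apply Measurable.exists
          intro m
          exact measurableSet_setOfPred.mp (hD m)
        · exact MeasurableSet.const _
    have e : {x : Sn 2 | x ∈ PT ∧ Nat.pair (l (f x)) (cd x) = k} =
        PT ∩ (f ⁻¹' {y | y ∈ Set.univ ∧ l y = k.unpair.1} ∩ {x | cd x = k.unpair.2}) := by
      ext x
      constructor
      · rintro ⟨hx, hk⟩
        subst hk
        refine ⟨hx, ⟨Set.mem_univ _, ?_⟩, ?_⟩
        · rw [Nat.unpair_pair]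
        · show cd x = _
          rw [Nat.unpair_pair]
      · rintro ⟨hx, ⟨_, h5⟩, h6⟩
        refine ⟨hx, ?_⟩
        have h6' : cd x = k.unpair.2 := h6
        have h5' : l (f x) = k.unpair.1 := h5
        rw [h6', h5', Nat.pair_unpair]
    rw [e]
    exact hPT.inter ((hf (h4 _)).inter (hcd _))

end Pool.Agent.H644R3.EFT4
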